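import Mathlib

/-! Wigner-positive states and beam-splitter states, with integral kernels (definitions). -/

set_option autoImplicit false

namespace Pool.H77.BSK

open MeasureTheory Complex
open scoped ComplexConjugate

/-- `K` is the integral kernel of a density operator `∑ c_k |u_k⟩⟨u_k|`, a finite mixture of pure
states with continuous wave functions `u_k`. -/
def IsState (K : ℝ → ℝ → ℂ) : Prop :=
  ∃ (n : ℕ) (c : Fin n → ℝ) (u : Fin n → ℝ → ℂ), (∀ k, 0 ≤ c k) ∧ ∑ k, c k = 1 ∧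
    (∀ k, Continuous (u k) ∧ ∫ x, ‖u k x‖ ^ 2 = 1) ∧
    ∀ x y, K x y = ∑ k, c k * (u k x * conj (u k y))

/-- The Wigner function `(1/π) ∫ K(x+y, x-y) e^(-2ipy) dy` of the operator with kernel `K`. -/
noncomputable def wigner (K : ℝ → ℝ → ℂ) (x p : ℝ) : ℂ :=
  1 / Real.pi * ∫ y : ℝ, K (x + y) (x - y) * exp (-(2 * I * p * y))

/-- `K` is the kernel of a state (as in `IsState`) with Wigner function `≥ 0` everywhere. -/
def WignerPositive (K : ℝ → ℝ → ℂ) : Prop :=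
  IsState K ∧ ∀ x p, ∃ w : ℝ, 0 ≤ w ∧ wigner K x p = w

/-- The wave function of the Fock state `|n⟩`: `(n! √π)^(-1/2) He_n(√2 x) e^(-x²/2)`. -/
noncomputable def fock (n : ℕ) (x : ℝ) : ℂ :=
  ((√(n.factorial * √Real.pi))⁻¹ * Polynomial.aeval (√2 * x) (Polynomial.hermite n) *
    Real.exp (-(x ^ 2 / 2)) : ℝ)

/-- The wave function of `U (ψ ⊗ φ)`: the balanced beam splitter is the rotation by `π/4`. -/
noncomputable def out (ψ φ : ℝ → ℂ) (x y : ℝ) : ℂ := ψ ((x - y) / √2) * φ ((x + y) / √2)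

/-- The kernel `∫ Ψ(x, y) conj Ψ(x', y) dy` of the partial trace `σ(ψ, φ)` of `|Ψ⟩⟨Ψ|` over the
second mode, `Ψ = U (ψ ⊗ φ)`. -/
noncomputable def sigma (ψ φ : ℝ → ℂ) (x x' : ℝ) : ℂ := ∫ y, out ψ φ x y * conj (out ψ φ x' y)

/-- The wave function of `(|0⟩ + √2 |2⟩)/√3`. -/
noncomputable def psi (x : ℝ) : ℂ := (fock 0 x + √2 * fock 2 x) / √3

end Pool.H77.BSK
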