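import Pool.Agent.H84.BSProof
import Pool.Agent.H77.BSK.Defs

set_option autoImplicit false

namespace Pool.H77.BSK

open MeasureTheory Complex
open scoped ComplexConjugate
open Pool.Agent.H84.BS (gfun E J WT continuous_gfun conj_gfun int_poly4 J_two_val J_four_val J_zero
  J0 J1 J2 J3 J4 κ κ_pos κ_mul sqrtpi_pos WT_nonneg he_zero he_two integrable_pow_exp)

noncomputable section

/-- `a |g₂⟩⟨g₂| + b (|g₂⟩⟨g₀| + |g₀⟩⟨g₂|) + c |g₀⟩⟨g₀| + e |g₁⟩⟨g₁|`. -/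
def ker (a b c e : ℝ) (x y : ℝ) : ℂ :=
  a * (gfun 2 x * gfun 2 y) + b * (gfun 2 x * gfun 0 y + gfun 0 x * gfun 2 y) +
    c * (gfun 0 x * gfun 0 y) + e * (gfun 1 x * gfun 1 y)

lemma state_of_mix {K : ℝ → ℝ → ℂ} {n : ℕ} (w N : Fin n → ℝ) (v : Fin n → ℝ → ℂ)
    (hw : ∀ k, 0 ≤ w k) (hN : ∀ k, 0 < N k) (hv : ∀ k, Continuous (v k))
    (hi : ∀ k, ∫ x, ‖v k x‖ ^ 2 = N k) (hs : ∑ k, w k * N k = 1)
    (hK : ∀ x y, K x y = ∑ k, w k * (v k x * conj (v k y))) : IsState K := by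
  refine ⟨n, fun k => w k * N k, fun k x => v k x / (√(N k) : ℝ), fun k => ?_, hs, fun k => ?_, ?_⟩
  · exact mul_nonneg (hw k) (hN k).le
  · refine ⟨(hv k).div_const _, ?_⟩
    have h1 : ∀ x, ‖v k x / (√(N k) : ℝ)‖ ^ 2 = (N k)⁻¹ * ‖v k x‖ ^ 2 := by
      intro x
      rw [norm_div, div_pow, Complex.norm_real, Real.norm_eq_abs, sq_abs, Real.sq_sqrt (hN k).le]
      ring
    simp only [h1]
    rw [integral_const_mul, hi, inv_mul_cancel₀ (hN k).ne']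
  · intro x y
    rw [hK]
    refine Finset.sum_congr rfl fun k _ => ?_
    have h1 : ((√(N k) : ℝ) : ℂ) * ((√(N k) : ℝ) : ℂ) = (N k : ℂ) := by
      rw [← ofReal_mul, Real.mul_self_sqrt (hN k).le]
    have h2 : ((√(N k) : ℝ) : ℂ) ≠ 0 := by
      rw [Ne, ofReal_eq_zero]; exact (Real.sqrt_pos.2 (hN k)).ne'
    rw [map_div₀, conj_ofReal]
    push_cast
    rw [← h1]
    field_simp

lemma int_pow (k : ℕ) : ((∫ x : ℝ, x ^ k * Real.exp (-(x ^ 2)) : ℝ) : ℂ) = J k 0 := by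
  unfold J E
  rw [← integral_complex_ofReal]
  refine integral_congr_ae (Filter.Eventually.of_forall fun x => ?_)
  simp only
  push_cast
  congr 2
  ring

lemma R0 : ∫ x : ℝ, x ^ 0 * Real.exp (-(x ^ 2)) = √Real.pi := by
  have h := int_pow 0
  rw [J0] at h
  exact_mod_cast h

lemma R2 : ∫ x : ℝ, x ^ 2 * Real.exp (-(x ^ 2)) = 1 / 2 * √Real.pi := by
  have h := int_pow 2
  rw [J2] at h
  apply ofReal_injective
  rw [h]; push_cast; ring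

lemma R4 : ∫ x : ℝ, x ^ 4 * Real.exp (-(x ^ 2)) = 3 / 4 * √Real.pi := by
  have h := int_pow 4
  rw [J4] at h
  apply ofReal_injective
  rw [h]; push_cast; ring

lemma gfun_real (j : ℕ) (x : ℝ) : gfun j x = ((x ^ j * Real.exp (-(x ^ 2 / 2)) : ℝ) : ℂ) := by
  unfold gfun; push_cast; rfl

lemma exp_half (x : ℝ) : Real.exp (-(x ^ 2 / 2)) ^ 2 = Real.exp (-(x ^ 2)) := by
  rw [← Real.exp_nat_mul]; congr 1; push_cast; ring

lemma int_norm (s t : ℝ) : ∫ x : ℝ, ‖(s : ℂ) * gfun 2 x + t * gfun 0 x‖ ^ 2 =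
    (3 / 4 * s ^ 2 + s * t + t ^ 2) * √Real.pi := by
  have h1 : ∀ x : ℝ, ‖(s : ℂ) * gfun 2 x + t * gfun 0 x‖ ^ 2 =
      s ^ 2 * (x ^ 4 * Real.exp (-(x ^ 2))) + 2 * s * t * (x ^ 2 * Real.exp (-(x ^ 2))) +
        t ^ 2 * (x ^ 0 * Real.exp (-(x ^ 2))) := by
    intro x
    have h2 : (s : ℂ) * gfun 2 x + t * gfun 0 x =
        (((s * x ^ 2 + t) * Real.exp (-(x ^ 2 / 2)) : ℝ) : ℂ) := by
      rw [gfun_real, gfun_real]; push_cast; ring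
    rw [h2, Complex.norm_real, Real.norm_eq_abs, sq_abs, mul_pow, exp_half]
    ring
  simp only [h1]
  have i4 := (integrable_pow_exp 4).const_mul (s ^ 2)
  have i2 := (integrable_pow_exp 2).const_mul (2 * s * t)
  have i0 := (integrable_pow_exp 0).const_mul (t ^ 2)
  have e1 := integral_add (i4.add i2) i0
  have e2 := integral_add i4 i2
  simp only [Pi.add_apply] at e1 e2
  rw [e1, e2, integral_const_mul, integral_const_mul, integral_const_mul, R0, R2, R4]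
  ring

lemma int_norm1 : ∫ x : ℝ, ‖gfun 1 x‖ ^ 2 = 1 / 2 * √Real.pi := by
  have h1 : ∀ x : ℝ, ‖gfun 1 x‖ ^ 2 = x ^ 2 * Real.exp (-(x ^ 2)) := by
    intro x
    rw [gfun_real, Complex.norm_real, Real.norm_eq_abs, sq_abs, mul_pow, exp_half, pow_one]
  simp only [h1]
  exact R2

lemma ker_state {a b c e : ℝ} (ha : 0 < a) (hc : 0 ≤ c - b ^ 2 / a) (he : 0 ≤ e)
    (htr : (3 / 4 * a + b + c + 1 / 2 * e) * √Real.pi = 1) : IsState (ker a b c e) := by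
  have hp := sqrtpi_pos
  refine state_of_mix (n := 3) ![a, c - b ^ 2 / a, e]
    ![(3 / 4 * 1 ^ 2 + 1 * (b / a) + (b / a) ^ 2) * √Real.pi, √Real.pi, 1 / 2 * √Real.pi]
    ![fun x => ((1 : ℝ) : ℂ) * gfun 2 x + ((b / a : ℝ) : ℂ) * gfun 0 x, fun x => gfun 0 x,
      fun x => gfun 1 x] ?_ ?_ ?_ ?_ ?_ ?_
  · intro k; fin_cases k
    · exact ha.le
    · exact hc
    · exact he
  · intro k; fin_cases k
    · have : 0 < 3 / 4 * 1 ^ 2 + 1 * (b / a) + (b / a) ^ 2 := by nlinarith [sq_nonneg (b / a + 1 / 2)]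
      exact mul_pos this hp
    · exact hp
    · change 0 < 1 / 2 * √Real.pi; positivity
  · intro k; fin_cases k
    · exact (continuous_const.mul (continuous_gfun 2)).add (continuous_const.mul (continuous_gfun 0))
    · exact continuous_gfun 0
    · exact continuous_gfun 1
  · intro k; fin_cases k
    · exact int_norm 1 (b / a)
    · have h := int_norm 0 1
      have h2 : ∀ x : ℝ, ‖((0 : ℝ) : ℂ) * gfun 2 x + ((1 : ℝ) : ℂ) * gfun 0 x‖ ^ 2 = ‖gfun 0 x‖ ^ 2 := by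
        intro x; simp
      simp only [h2] at h
      change ∫ x : ℝ, ‖gfun 0 x‖ ^ 2 = √Real.pi
      rw [h]; ring
    · exact int_norm1
  · simp only [Fin.sum_univ_three]
    change a * ((3 / 4 * 1 ^ 2 + 1 * (b / a) + (b / a) ^ 2) * √Real.pi) +
      (c - b ^ 2 / a) * √Real.pi + e * (1 / 2 * √Real.pi) = 1
    have h1 : a * ((3 / 4 * 1 ^ 2 + 1 * (b / a) + (b / a) ^ 2) * √Real.pi) +
      (c - b ^ 2 / a) * √Real.pi + e * (1 / 2 * √Real.pi) =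
        (3 / 4 * a + b + c + 1 / 2 * e) * √Real.pi := by
      field_simp
      ring
    rw [h1, htr]
  · intro x y
    simp only [Fin.sum_univ_three]
    change ker a b c e x y =
      (a : ℂ) * ((((1 : ℝ) : ℂ) * gfun 2 x + ((b / a : ℝ) : ℂ) * gfun 0 x) *
        conj (((1 : ℝ) : ℂ) * gfun 2 y + ((b / a : ℝ) : ℂ) * gfun 0 y)) +
      ((c - b ^ 2 / a : ℝ) : ℂ) * (gfun 0 x * conj (gfun 0 y)) +
      (e : ℂ) * (gfun 1 x * conj (gfun 1 y))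
    have haC : (a : ℂ) ≠ 0 := by exact_mod_cast ha.ne'
    simp only [map_add, map_mul, conj_gfun, conj_ofReal]
    unfold ker
    push_cast
    field_simp
    ring

lemma ker_wigner (a b c e x p : ℝ) : wigner (ker a b c e) x p = ((WT a b c e x p : ℝ) : ℂ) := by
  unfold wigner
  have h : ∀ y : ℝ, ker a b c e (x + y) (x - y) * exp (-(2 * I * p * y)) =
      cexp (-(x : ℂ) ^ 2) * ((a * (x : ℂ) ^ 4 + 2 * b * (x : ℂ) ^ 2 + c + e * (x : ℂ) ^ 2) *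
        ((y : ℂ) ^ 0 * E p y) + 0 * ((y : ℂ) ^ 1 * E p y) +
        (-2 * a * (x : ℂ) ^ 2 + 2 * b - e) * ((y : ℂ) ^ 2 * E p y) + 0 * ((y : ℂ) ^ 3 * E p y) +
        a * ((y : ℂ) ^ 4 * E p y)) := by
    intro y
    have h0 : cexp (-(((x : ℂ) + y) ^ 2 / 2)) * cexp (-(((x : ℂ) - y) ^ 2 / 2)) *
        cexp (-(2 * I * p * y)) = cexp (-(x : ℂ) ^ 2) * E p y := by
      unfold E
      rw [← Complex.exp_add, ← Complex.exp_add, ← Complex.exp_add]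
      congr 1
      ring
    unfold ker gfun
    push_cast
    linear_combination (a * ((x : ℂ) + y) ^ 2 * ((x : ℂ) - y) ^ 2 +
      b * (((x : ℂ) + y) ^ 2 + ((x : ℂ) - y) ^ 2) + c + e * ((x : ℂ) + y) * ((x : ℂ) - y)) * h0
  simp only [h]
  rw [integral_const_mul, int_poly4, J_two_val, J_four_val]
  unfold WT
  rw [J_zero]
  push_cast
  have hpi : (Real.pi : ℂ) = ((√Real.pi : ℝ) : ℂ) * ((√Real.pi : ℝ) : ℂ) := by
    rw [← ofReal_mul, Real.mul_self_sqrt Real.pi_pos.le]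
  have hs : ((√Real.pi : ℝ) : ℂ) ≠ 0 := by
    rw [Ne, ofReal_eq_zero]
    exact (Real.sqrt_pos.2 Real.pi_pos).ne'
  rw [hpi]
  field_simp
  ring

lemma ker_pos {a b c e : ℝ} (ha : 0 < a) (hc : 0 ≤ c - b ^ 2 / a) (he : 0 ≤ e)
    (htr : (3 / 4 * a + b + c + 1 / 2 * e) * √Real.pi = 1)
    (hw : ∀ x p : ℝ, 0 ≤ a * (x ^ 4 - x ^ 2 + 2 * x ^ 2 * p ^ 2 + 3 / 4 - 3 * p ^ 2 + p ^ 4) +
      2 * b * (x ^ 2 + 1 / 2 - p ^ 2) + c + e * (x ^ 2 - 1 / 2 + p ^ 2)) :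
    WignerPositive (ker a b c e) :=
  ⟨ker_state ha hc he htr, fun x p => ⟨WT a b c e x p, WT_nonneg (hw x p), ker_wigner a b c e x p⟩⟩

lemma fock0_eq (x : ℝ) : fock 0 x = (((√(√Real.pi))⁻¹ : ℝ) : ℂ) * gfun 0 x := by
  unfold fock
  rw [he_zero, gfun_real, ← ofReal_mul]
  congr 1
  rw [Nat.factorial_zero, Nat.cast_one, one_mul]
  ring

lemma psi_eq (x : ℝ) : psi x = ((2 / (√3 * √(√Real.pi)) : ℝ) : ℂ) * gfun 2 x := by
  unfold psi fock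
  rw [he_zero, he_two, gfun_real, ← ofReal_mul, ← ofReal_mul, ← ofReal_add, ← ofReal_div]
  congr 1
  have hs2 : √((Nat.factorial 2 : ℕ) * √Real.pi) = √2 * √(√Real.pi) := by
    rw [Nat.factorial_two, Nat.cast_ofNat, Real.sqrt_mul (by norm_num)]
  have hs0 : √((Nat.factorial 0 : ℕ) * √Real.pi) = √(√Real.pi) := by
    rw [Nat.factorial_zero, Nat.cast_one, one_mul]
  rw [hs2, hs0]
  have p2 : 0 < √2 := Real.sqrt_pos.2 (by norm_num)
  have p3 : 0 < √3 := Real.sqrt_pos.2 (by norm_num)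
  have pp : 0 < √(√Real.pi) := Real.sqrt_pos.2 sqrtpi_pos
  field_simp
  ring

lemma out_eq (x y : ℝ) : out psi (fock 0) x y =
    ((2 / (√3 * √(√Real.pi)) * (√(√Real.pi))⁻¹ / 2 : ℝ) : ℂ) *
      (((x : ℂ) - y) ^ 2 * (cexp (-((x : ℂ) ^ 2 / 2)) * cexp (-((y : ℂ) ^ 2 / 2)))) := by
  unfold out
  rw [psi_eq, fock0_eq]
  unfold gfun
  have h2 : ((√2 : ℝ) : ℂ) ^ 2 = 2 := by
    rw [← ofReal_pow, Real.sq_sqrt (by norm_num)]; norm_num
  have h3 : cexp (-((((x - y) / √2 : ℝ) : ℂ) ^ 2 / 2)) * cexp (-((((x + y) / √2 : ℝ) : ℂ) ^ 2 / 2)) =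
      cexp (-((x : ℂ) ^ 2 / 2)) * cexp (-((y : ℂ) ^ 2 / 2)) := by
    rw [← Complex.exp_add, ← Complex.exp_add]
    congr 1
    push_cast
    rw [div_pow, div_pow, h2]
    ring
  have h4 : (((x - y) / √2 : ℝ) : ℂ) ^ 2 = ((x : ℂ) - y) ^ 2 / 2 := by
    push_cast
    rw [div_pow, h2]
  generalize cexp (-((((x - y) / √2 : ℝ) : ℂ) ^ 2 / 2)) = A at h3 ⊢
  generalize cexp (-((((x + y) / √2 : ℝ) : ℂ) ^ 2 / 2)) = B at h3 ⊢
  rw [h4, pow_zero, one_mul]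
  push_cast
  linear_combination (2 / (((√3 : ℝ) : ℂ) * ((√(√Real.pi) : ℝ) : ℂ)) * (((√(√Real.pi) : ℝ) : ℂ))⁻¹ *
    (((x : ℂ) - y) ^ 2 / 2)) * h3

lemma sigma_eq (x x' : ℝ) : sigma psi (fock 0) x x' = ker κ (κ / 2) (3 / 4 * κ) (2 * κ) x x' := by
  unfold sigma
  simp only [out_eq]
  set N : ℝ := 2 / (√3 * √(√Real.pi)) * (√(√Real.pi))⁻¹ / 2 with hN
  have hc : ∀ t : ℝ, conj (cexp (-((t : ℂ) ^ 2 / 2))) = cexp (-((t : ℂ) ^ 2 / 2)) := by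
    intro t
    have := conj_gfun 0 t
    unfold gfun at this
    simpa using this
  have h : ∀ y : ℝ, (N : ℂ) * (((x : ℂ) - y) ^ 2 * (cexp (-((x : ℂ) ^ 2 / 2)) *
      cexp (-((y : ℂ) ^ 2 / 2)))) * conj ((N : ℂ) * (((x' : ℂ) - y) ^ 2 *
        (cexp (-((x' : ℂ) ^ 2 / 2)) * cexp (-((y : ℂ) ^ 2 / 2))))) =
      ((N : ℂ) ^ 2 * (cexp (-((x : ℂ) ^ 2 / 2)) * cexp (-((x' : ℂ) ^ 2 / 2)))) *
      (((x : ℂ) ^ 2 * (x' : ℂ) ^ 2) * ((y : ℂ) ^ 0 * E 0 y) +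
        (-2 * ((x : ℂ) ^ 2 * x' + x * (x' : ℂ) ^ 2)) * ((y : ℂ) ^ 1 * E 0 y) +
        ((x : ℂ) ^ 2 + (x' : ℂ) ^ 2 + 4 * x * x') * ((y : ℂ) ^ 2 * E 0 y) +
        (-2 * ((x : ℂ) + x')) * ((y : ℂ) ^ 3 * E 0 y) + 1 * ((y : ℂ) ^ 4 * E 0 y)) := by
    intro y
    have h0 : cexp (-((y : ℂ) ^ 2 / 2)) * cexp (-((y : ℂ) ^ 2 / 2)) = E 0 y := by
      rw [Pool.Agent.H84.BS.E_zero_eq]
    rw [map_mul, map_mul, map_mul, map_pow, map_sub, conj_ofReal, conj_ofReal, conj_ofReal, hc, hc,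
      ← h0]
    ring
  simp only [h]
  rw [integral_const_mul, int_poly4, J0, J1, J2, J3, J4]
  have h5 : (N : ℂ) ^ 2 * ((√Real.pi : ℝ) : ℂ) = (κ : ℂ) := by
    rw [← ofReal_pow, ← ofReal_mul]
    congr 1
    rw [hN]
    unfold κ
    have p3 : 0 < √3 := Real.sqrt_pos.2 (by norm_num)
    have pp : 0 < √(√Real.pi) := Real.sqrt_pos.2 sqrtpi_pos
    have hp : √(√Real.pi) ^ 2 = √Real.pi := Real.sq_sqrt sqrtpi_pos.le
    have h3 : √3 ^ 2 = 3 := Real.sq_sqrt (by norm_num)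
    have e1 : 2 / (√3 * √(√Real.pi)) * (√(√Real.pi))⁻¹ / 2 = 1 / (√3 * √(√Real.pi) ^ 2) := by
      field_simp
    rw [e1, hp, div_pow, mul_pow, h3]
    have := sqrtpi_pos
    field_simp
  unfold ker gfun
  push_cast
  linear_combination ((x : ℂ) ^ 2 * (x' : ℂ) ^ 2 + 1 / 2 * ((x : ℂ) ^ 2 + (x' : ℂ) ^ 2 + 4 * x * x') +
    3 / 4) * (cexp (-((x : ℂ) ^ 2 / 2)) * cexp (-((x' : ℂ) ^ 2 / 2))) * h5

lemma norm_fock0 : ∫ x, ‖fock 0 x‖ ^ 2 = 1 := by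
  have h := int_norm 0 (√(√Real.pi))⁻¹
  have h1 : ∀ x : ℝ, ‖fock 0 x‖ ^ 2 =
      ‖((0 : ℝ) : ℂ) * gfun 2 x + (((√(√Real.pi))⁻¹ : ℝ) : ℂ) * gfun 0 x‖ ^ 2 := by
    intro x; rw [fock0_eq]; simp
  simp only [h1]
  rw [h, inv_pow, Real.sq_sqrt sqrtpi_pos.le]
  have := sqrtpi_pos
  field_simp
  ring

lemma norm_psi : ∫ x, ‖psi x‖ ^ 2 = 1 := by
  have h := int_norm (2 / (√3 * √(√Real.pi))) 0
  have h1 : ∀ x : ℝ, ‖psi x‖ ^ 2 =
      ‖((2 / (√3 * √(√Real.pi)) : ℝ) : ℂ) * gfun 2 x + ((0 : ℝ) : ℂ) * gfun 0 x‖ ^ 2 := by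
    intro x; rw [psi_eq]; simp
  simp only [h1]
  rw [h, div_pow, mul_pow, Real.sq_sqrt sqrtpi_pos.le, Real.sq_sqrt (by norm_num)]
  have := sqrtpi_pos
  field_simp
  ring

theorem main : ∫ x, ‖psi x‖ ^ 2 = 1 ∧ ∫ x, ‖fock 0 x‖ ^ 2 = 1 ∧
    WignerPositive (sigma psi (fock 0)) ∧
    ∃ K L, WignerPositive K ∧ WignerPositive L ∧ K ≠ L ∧
      ∀ x y, sigma psi (fock 0) x y = (K x y + L x y) / 2 := by
  have hκ := κ_pos
  have hκm := κ_mul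
  refine ⟨norm_psi, norm_fock0, ?_, ker (5 / 6 * κ) (2 / 3 * κ) (5 / 8 * κ) (13 / 6 * κ),
    ker (7 / 6 * κ) (1 / 3 * κ) (7 / 8 * κ) (11 / 6 * κ), ?_, ?_, ?_, ?_⟩
  · have : sigma psi (fock 0) = ker κ (κ / 2) (3 / 4 * κ) (2 * κ) := by
      funext x y; exact sigma_eq x y
    rw [this]
    apply ker_pos hκ
    · have : 3 / 4 * κ - (κ / 2) ^ 2 / κ = κ / 2 := by field_simp; ring
      rw [this]; positivity
    · positivity
    · linarith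
    · intro x p
      nlinarith [mul_nonneg hκ.le (sq_nonneg (p ^ 2 - 1)), mul_nonneg hκ.le (sq_nonneg (x ^ 2)),
        mul_nonneg hκ.le (sq_nonneg (x * p)), mul_nonneg hκ.le (sq_nonneg x)]
  · apply ker_pos (by positivity)
    · have : 5 / 8 * κ - (2 / 3 * κ) ^ 2 / (5 / 6 * κ) = 11 / 120 * κ := by field_simp; ring
      rw [this]; positivity
    · positivity
    · linarith
    · intro x p
      nlinarith [mul_nonneg hκ.le (sq_nonneg (p ^ 2 - 1)), mul_nonneg hκ.le (sq_nonneg (x ^ 2)),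
        mul_nonneg hκ.le (sq_nonneg (x * p)), mul_nonneg hκ.le (sq_nonneg x)]
  · apply ker_pos (by positivity)
    · have : 7 / 8 * κ - (1 / 3 * κ) ^ 2 / (7 / 6 * κ) = 131 / 168 * κ := by field_simp; ring
      rw [this]; positivity
    · positivity
    · linarith
    · intro x p
      nlinarith [mul_nonneg hκ.le (sq_nonneg (p ^ 2 - 1)), mul_nonneg hκ.le (sq_nonneg (x ^ 2)),
        mul_nonneg hκ.le (sq_nonneg (x * p)), mul_nonneg hκ.le (sq_nonneg x)]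
  · intro h
    have h1 := congrFun (congrFun h 0) 0
    unfold ker gfun at h1
    simp at h1
    have h2 : (5 / 8 : ℂ) * κ = 7 / 8 * κ := by simpa using h1
    have h3 : (κ : ℂ) ≠ 0 := by exact_mod_cast hκ.ne'
    have h4 := mul_right_cancel₀ h3 h2
    norm_num at h4
  · intro x y
    rw [sigma_eq]
    unfold ker
    push_cast
    ring

end

end Pool.H77.BSK
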